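import Pool.Agent.H.MP_aeebd3_an.A

set_option autoImplicit false

namespace Pool.Agent.H.MP_a7dd25_pr

open MeasureTheory ProbabilityTheory Real Finset Pool.Agent.H.MP_aeebd3_an
open scoped RealInnerProductSpace ENNReal

noncomputable def ang {ι : Type} [Fintype ι] (w a b : ι → ℝ) : ℝ :=
  arccos ((∑ k, w k * (a k * b k)) / √((∑ k, w k * a k ^ 2) * ∑ k, w k * b k ^ 2))

theorem shep {E : Type} [NormedAddCommGroup E] [InnerProductSpace ℝ E] [FiniteDimensional ℝ E]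
    [MeasurableSpace E] [BorelSpace E] (u v : E) (hu : u ≠ 0) (hv : v ≠ 0) :
    (stdGaussian E).real {g | ⟪u, g⟫ * ⟪v, g⟫ < 0} = arccos (⟪u, v⟫ / (‖u‖ * ‖v‖)) / π := by
  have u0 : 0 < ‖u‖ := norm_pos_iff.2 hu
  have v0 : 0 < ‖v‖ := norm_pos_iff.2 hv
  have n1 : ∀ w : E, w ≠ 0 → ‖‖w‖⁻¹ • w‖ = 1 := fun w hw => by
    rw [norm_smul, norm_inv, norm_norm]; exact inv_mul_cancel₀ (norm_ne_zero_iff.2 hw)
  have ae : ∀ w : E, w ≠ 0 → ∀ᵐ g ∂(stdGaussian E), ⟪w, g⟫ ≠ 0 := by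
    intro w hw
    have h := law1 _ (n1 w hw)
    have h2 : ∀ᵐ x ∂(gaussianReal 0 1), x ≠ (0 : ℝ) := by
      have := nullSingletonClass_gaussianReal (μ := 0) (v := 1) one_ne_zero
      exact Measure.ae_ne _ _
    rw [← h] at h2
    filter_upwards [ae_of_ae_map (by fun_prop) h2] with g hg h0
    exact hg (by rw [inner_smul_left, h0, mul_zero])
  have G := groth _ _ (n1 u hu) (n1 v hv)
  simp only [inner_smul_left, inner_smul_right, conj_trivial, sg_mul (inv_pos.2 u0),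
    sg_mul (inv_pos.2 v0)] at G
  have hm : MeasurableSet {g : E | ⟪u, g⟫ * ⟪v, g⟫ < 0} :=
    measurableSet_lt (by fun_prop) measurable_const
  have hi : Integrable (fun g : E => sg ⟪u, g⟫ * sg ⟪v, g⟫) (stdGaussian E) := by
    refine Integrable.of_bound (C := 1) ?_ (.of_forall fun g => ?_)
    · exact ((sg_meas.comp (by fun_prop)).mul (sg_meas.comp (by fun_prop))).aestronglyMeasurable
    · rw [Real.norm_eq_abs, abs_mul, sg_abs, sg_abs, one_mul]
  rw [← integral_indicator_one hm, integral_congr_ae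
    (g := fun g => 1 / 2 - 1 / 2 * (sg ⟪u, g⟫ * sg ⟪v, g⟫)), integral_sub (integrable_const _)
    (hi.const_mul _), integral_const_mul, G, arccos_eq_pi_div_two_sub_arcsin,
    show ⟪u, v⟫ / (‖u‖ * ‖v‖) = ‖v‖⁻¹ * (‖u‖⁻¹ * ⟪u, v⟫) by field_simp]
  · simp only [integral_const, probReal_univ, smul_eq_mul, one_mul]
    field_simp
  · filter_upwards [ae u hu, ae v hv] with g h1 h2
    simp only [Set.indicator, Set.mem_setOf_eq, Pi.one_apply]
    rcases h1.lt_or_gt with h1 | h1 <;> rcases h2.lt_or_gt with h2 | h2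
    · rw [if_neg (mul_pos_of_neg_of_neg h1 h2).not_gt, sg_neg h1, sg_neg h2]; norm_num
    · rw [if_pos (mul_neg_of_neg_of_pos h1 h2), sg_neg h1, sg_pos h2]; norm_num
    · rw [if_pos (mul_neg_of_pos_of_neg h1 h2), sg_pos h1, sg_neg h2]; norm_num
    · rw [if_neg (mul_pos h1 h2).not_gt, sg_pos h1, sg_pos h2]; norm_num

theorem sc {ι : Type} [Fintype ι] (s a b : ι → ℝ) (hA : 0 < ∑ k, s k ^ 2 * a k ^ 2)
    (hB : 0 < ∑ k, s k ^ 2 * b k ^ 2) :
    (Measure.pi fun k => (gaussianReal 0 1).map (s k * ·))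
      {g : ι → ℝ | (∑ k, g k * a k) * (∑ k, g k * b k) < 0} =
      ENNReal.ofReal (ang (fun k => s k ^ 2) a b / π) := by
  have nn : ∀ c : ι → ℝ, ‖(WithLp.toLp 2 fun k => s k * c k : EuclideanSpace ℝ ι)‖ =
      √(∑ k, s k ^ 2 * c k ^ 2) := fun c => by
    rw [EuclideanSpace.norm_eq]; simp [mul_pow]
  have ne : ∀ c : ι → ℝ, 0 < ∑ k, s k ^ 2 * c k ^ 2 →
      (WithLp.toLp 2 fun k => s k * c k : EuclideanSpace ℝ ι) ≠ 0 := fun c hc => by
    rw [← norm_pos_iff, nn]; exact sqrt_pos.2 hc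
  have h := shep _ _ (ne a hA) (ne b hB)
  rw [nn, nn, ← sqrt_mul hA.le, ← map_pi_eq_stdGaussian, Measure.real, Measure.map_apply (by fun_prop)
    (measurableSet_lt (by fun_prop) measurable_const)] at h
  rw [← Measure.pi_map_pi (fun k => by fun_prop), Measure.map_apply (by fun_prop)
    (measurableSet_lt (by fun_prop) measurable_const)]
  have e : ang (fun k => s k ^ 2) a b = arccos (⟪(WithLp.toLp 2 fun k => s k * a k :
      EuclideanSpace ℝ ι), WithLp.toLp 2 fun k => s k * b k⟫ /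
      √((∑ k, s k ^ 2 * a k ^ 2) * ∑ k, s k ^ 2 * b k ^ 2)) := by
    unfold ang
    congr 2
    simp only [PiLp.inner_apply, RCLike.inner_apply, conj_trivial]
    exact Finset.sum_congr rfl fun k _ => by ring
  rw [e, ← h, ENNReal.ofReal_toReal (measure_ne_top _ _)]
  congr 1
  ext g
  simp only [Set.mem_preimage, Set.mem_setOf_eq, PiLp.inner_apply, RCLike.inner_apply, conj_trivial]
  have : ∀ c : ι → ℝ, ∑ k, s k * g k * c k = ∑ k, g k * (s k * c k) := fun c =>
    Finset.sum_congr rfl fun k _ => by ring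
  rw [this, this]

noncomputable def fo (q : Bool × Bool) (t : ℝ) : ℝ :=
  (if q.1 then -1 else 1) * if q.2 then t⁻¹ else t

open Classical in
theorem roots_ge {I : Type} [Fintype I] (α β : I → ℝ) (h0 : ∀ i, 0 < α i) (hab : ∀ i, α i < β i)
    (h1 : ∀ i, β i < 1) (hd : ∀ i j, i ≠ j → β i ≤ α j ∨ β j ≤ α i) (P : Polynomial ℝ) :
    #{q : (Bool × Bool) × I | P.eval (fo q.1 (α q.2)) * P.eval (fo q.1 (β q.2)) < 0} ≤
      Multiset.card P.roots := by
  have ex : ∀ q : (Bool × Bool) × I, ∃ t, P.eval (fo q.1 (α q.2)) * P.eval (fo q.1 (β q.2)) < 0 →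
      t ∈ Set.Ioo (α q.2) (β q.2) ∧ P.eval (fo q.1 t) = 0 := by
    intro q
    by_cases h : P.eval (fo q.1 (α q.2)) * P.eval (fo q.1 (β q.2)) < 0
    · have hc : ContinuousOn (fun t => P.eval (fo q.1 t)) (Set.Icc (α q.2) (β q.2)) := by
        refine P.continuous.comp_continuousOn (continuousOn_const.mul ?_)
        split_ifs
        · exact continuousOn_inv₀.mono fun t ht => ((h0 _).trans_le ht.1).ne'
        · exact continuousOn_id
      rcases mul_neg_iff.1 h with h2 | h2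
      · obtain ⟨t, ht, h3⟩ := intermediate_value_Ioo' (hab _).le hc (show (0 : ℝ) ∈ _ from ⟨h2.2, h2.1⟩)
        exact ⟨t, fun _ => ⟨ht, h3⟩⟩
      · obtain ⟨t, ht, h3⟩ := intermediate_value_Ioo (hab _).le hc (show (0 : ℝ) ∈ _ from h2)
        exact ⟨t, fun _ => ⟨ht, h3⟩⟩
    · exact ⟨0, fun h' => (h h').elim⟩
  choose t ht using ex
  refine le_trans (card_le_card_of_injOn (fun q => fo q.1 (t q)) ?_ ?_) (Multiset.toFinset_card_le _)
  · intro q hq
    rw [mem_coe, mem_filter_univ] at hq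
    rw [mem_coe, Multiset.mem_toFinset, Polynomial.mem_roots (by rintro rfl; simp at hq)]
    exact (ht q hq).2
  · rintro ⟨⟨e, f⟩, i⟩ hq ⟨⟨e', f'⟩, j⟩ hq' h
    rw [mem_coe, mem_filter_univ] at hq hq'
    obtain ⟨x, hx⟩ : ∃ x, x = t ((e, f), i) := ⟨_, rfl⟩
    obtain ⟨y, hy⟩ : ∃ y, y = t ((e', f'), j) := ⟨_, rfl⟩
    have a1 := (ht _ hq).1
    have a2 := (ht _ hq').1
    simp only [← hx, ← hy, Set.mem_Ioo] at a1 a2 h
    have x0 := (h0 i).trans a1.1
    have y0 := (h0 j).trans a2.1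
    have x1 := one_lt_inv₀ x0 |>.2 (a1.2.trans (h1 i))
    have y1 := one_lt_inv₀ y0 |>.2 (a2.2.trans (h1 j))
    have x2 := a1.2.trans (h1 i)
    have y2 := a2.2.trans (h1 j)
    have key : e = e' ∧ f = f' ∧ x = y := by
      cases e <;> cases f <;> cases e' <;> cases f' <;> simp [fo] at h ⊢ <;> first | exact h | linarith
    obtain ⟨rfl, rfl, h3⟩ := key
    by_contra hne
    rcases hd i j (fun h4 => hne (by rw [h4])) with h4 | h4 <;> linarith [a1.1, a1.2, a2.1, a2.2]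

noncomputable def Ex {J : Type} [Fintype J] (p : J → ℝ) (N : ℕ) (f : (Fin N → J) → ℝ) : ℝ :=
  ∑ l, (∏ k, p (l k)) * f l

noncomputable def mix {J : Type} [Fintype J] (p s : J → ℝ) : Measure ℝ :=
  ∑ j, ENNReal.ofReal (p j) • (gaussianReal 0 1).map (s j * ·)

theorem mix_prob {J : Type} [Fintype J] (p s : J → ℝ) (p0 : ∀ j, 0 ≤ p j) (p1 : ∑ j, p j = 1) :
    IsProbabilityMeasure (mix p s) := by
  constructor
  have : ∀ j, ((gaussianReal 0 1).map (s j * ·)) Set.univ = 1 := fun j => by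
    rw [Measure.map_apply (by fun_prop) MeasurableSet.univ]; simp
  simp only [mix, Measure.finsetSum_apply, Measure.smul_apply, this, smul_eq_mul, mul_one]
  rw [← ENNReal.ofReal_sum_of_nonneg fun j _ => p0 j, p1, ENNReal.ofReal_one]

theorem lower {J I : Type} [Fintype J] [Fintype I] (p s : J → ℝ) (p0 : ∀ j, 0 ≤ p j)
    (p1 : ∑ j, p j = 1) (s0 : ∀ j, 0 < s j) (α β : I → ℝ) (h0 : ∀ i, 0 < α i) (hab : ∀ i, α i < β i)
    (h1 : ∀ i, β i < 1) (hd : ∀ i j, i ≠ j → β i ≤ α j ∨ β j ≤ α i) (n : ℕ) :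
    ENNReal.ofReal (∑ q : (Bool × Bool) × I, Ex p (n + 1) fun l => ang (fun k => s (l k) ^ 2)
      (fun k => fo q.1 (α q.2) ^ (k : ℕ)) (fun k => fo q.1 (β q.2) ^ (k : ℕ)) / π) ≤
    ∫⁻ a : Fin (n + 1) → ℝ, (Multiset.card (∑ k : Fin (n + 1), Polynomial.monomial (k : ℕ) (a k)).roots : ℝ≥0∞)
      ∂(Measure.pi fun _ => mix p s) := by
  classical
  have := mix_prob p s p0 p1
  have hp : ∀ j, IsProbabilityMeasure ((gaussianReal 0 1).map (s j * ·)) := fun j =>
    Measure.isProbabilityMeasure_map (by fun_prop)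
  have e : (Measure.pi fun _ : Fin (n + 1) => mix p s) = ∑ l : Fin (n + 1) → J,
      ENNReal.ofReal (∏ k, p (l k)) • Measure.pi fun k => (gaussianReal 0 1).map (s (l k) * ·) := by
    refine Measure.pi_eq fun t _ => ?_
    simp only [mix, Measure.finsetSum_apply, Measure.smul_apply, smul_eq_mul, Measure.pi_pi]
    rw [Finset.prod_univ_sum, Fintype.piFinset_univ]
    refine Finset.sum_congr rfl fun l _ => ?_
    rw [Finset.prod_mul_distrib, ENNReal.ofReal_prod_of_nonneg fun k _ => p0 _]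
  have an : ∀ (w a b : Fin (n + 1) → ℝ), 0 ≤ ang w a b / π := fun w a b =>
    div_nonneg (arccos_nonneg _) pi_pos.le
  have pp : ∀ l : Fin (n + 1) → J, 0 ≤ ∏ k, p (l k) := fun l => Finset.prod_nonneg fun k _ => p0 _
  unfold Ex
  rw [e, lintegral_finsetSum_measure, Finset.sum_comm,
    ENNReal.ofReal_sum_of_nonneg fun l _ => Finset.sum_nonneg fun q _ => mul_nonneg (pp l) (an _ _ _)]
  refine Finset.sum_le_sum fun l _ => ?_
  rw [lintegral_smul_measure, ← Finset.mul_sum, ENNReal.ofReal_mul (pp l), smul_eq_mul,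
    ENNReal.ofReal_sum_of_nonneg fun q _ => an _ _ _]
  refine mul_le_mul_right ?_ _
  have pos : ∀ x : ℝ, 0 < ∑ k : Fin (n + 1), s (l k) ^ 2 * (x ^ (k : ℕ)) ^ 2 := fun x =>
    Finset.sum_pos' (fun k _ => by positivity) ⟨0, mem_univ _, by simpa using pow_pos (s0 _) 2⟩
  have ms : ∀ x y : ℝ, MeasurableSet {g : Fin (n + 1) → ℝ |
      (∑ k, g k * x ^ (k : ℕ)) * (∑ k, g k * y ^ (k : ℕ)) < 0} := fun x y =>
    measurableSet_lt (by fun_prop) measurable_const
  simp only [← sc _ _ _ (pos _) (pos _), ← lintegral_indicator_one (ms _ _)]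
  rw [← lintegral_finsetSum _ fun q _ => measurable_one.indicator (ms _ _)]
  refine lintegral_mono fun g => ?_
  have := roots_ge α β h0 hab h1 hd (∑ k : Fin (n + 1), Polynomial.monomial (k : ℕ) (g k))
  refine le_trans (le_of_eq ?_) (Nat.cast_le.2 this)
  rw [card_filter]
  push_cast
  refine Finset.sum_congr rfl fun q _ => ?_
  simp [Set.indicator, Polynomial.eval_finsetSum]

end Pool.Agent.H.MP_a7dd25_pr
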