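import Pool.Agent.H.MP_a7dd25_pr.A

set_option autoImplicit false

namespace Pool.Agent.H.MP_a7dd25_pr

open Real Finset

variable {J : Type} [Fintype J] {p : J → ℝ} {N : ℕ}

theorem Ex_mono (p0 : ∀ j, 0 ≤ p j) {f g : (Fin N → J) → ℝ} (h : ∀ l, f l ≤ g l) :
    Ex p N f ≤ Ex p N g :=
  Finset.sum_le_sum fun l _ => mul_le_mul_of_nonneg_left (h l) (Finset.prod_nonneg fun _ _ => p0 _)

theorem Ex_add (f g : (Fin N → J) → ℝ) : Ex p N (fun l => f l + g l) = Ex p N f + Ex p N g := by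
  simp only [Ex, mul_add, Finset.sum_add_distrib]

theorem Ex_sub (f g : (Fin N → J) → ℝ) : Ex p N (fun l => f l - g l) = Ex p N f - Ex p N g := by
  simp only [Ex, mul_sub, Finset.sum_sub_distrib]

theorem Ex_mul (c : ℝ) (f : (Fin N → J) → ℝ) : Ex p N (fun l => c * f l) = c * Ex p N f := by
  simp only [Ex, Finset.mul_sum, mul_left_comm c]

theorem Ex_div (c : ℝ) (f : (Fin N → J) → ℝ) : Ex p N (fun l => f l / c) = Ex p N f / c := by
  simp only [Ex, Finset.sum_div, mul_div_assoc]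

theorem Ex_sum {I : Type} (t : Finset I) (f : I → (Fin N → J) → ℝ) :
    Ex p N (fun l => ∑ i ∈ t, f i l) = ∑ i ∈ t, Ex p N (f i) := by
  simp only [Ex, Finset.mul_sum]; exact Finset.sum_comm

theorem Ex_prod (g : Fin N → J → ℝ) :
    Ex p N (fun l => ∏ k, g k (l k)) = ∏ k, ∑ j, p j * g k j := by
  classical
  rw [Finset.prod_univ_sum, Fintype.piFinset_univ]
  simp only [Ex, Finset.prod_mul_distrib]

theorem Ex_const (p1 : ∑ j, p j = 1) (c : ℝ) : Ex p N (fun _ => c) = c := by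
  have := Ex_prod (p := p) (N := N) fun _ _ => 1
  simp only [prod_const_one, mul_one, p1] at this
  simpa [this] using Ex_mul (p := p) (N := N) c fun _ => 1

theorem Ex_var (p1 : ∑ j, p j = 1) (U : J → ℝ) (hU : ∑ j, p j * U j = 0) (c : Fin N → ℝ) :
    Ex p N (fun l => (∑ k, U (l k) * c k) ^ 2) = (∑ j, p j * U j ^ 2) * ∑ k, c k ^ 2 := by
  have e : ∀ l : Fin N → J, (∑ k, U (l k) * c k) ^ 2 = ∑ k, ∑ k', (c k * c k') *
      ∏ i, ((if i = k then U (l i) else 1) * if i = k' then U (l i) else 1) := by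
    intro l
    rw [sq, Finset.sum_mul_sum]
    refine Finset.sum_congr rfl fun k _ => Finset.sum_congr rfl fun k' _ => ?_
    rw [Finset.prod_mul_distrib, prod_ite_eq', prod_ite_eq']
    simp only [mem_univ, if_true]; ring
  simp only [e, Ex_sum, Ex_mul]
  rw [Finset.mul_sum]
  refine Finset.sum_congr rfl fun k _ => ?_
  have e2 := fun k' => Ex_prod (p := p) fun (i : Fin N) j =>
    (if i = k then U j else 1) * if i = k' then U j else 1
  simp only [e2]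
  rw [Finset.sum_eq_single k]
  · rw [Finset.prod_eq_single k]
    · simp only [if_true, sq]; ring
    · intro i _ hi; simp [hi, p1]
    · simp
  · intro k' _ hk
    rw [Finset.prod_eq_zero (mem_univ k), mul_zero]
    simp [hk.symm, hU]
  · simp

theorem ang_scale {ι : Type} [Fintype ι] (w a b : ι → ℝ) (c d : ℝ) (c0 : 0 < c) (d0 : 0 < d) :
    ang w (fun k => c * a k) (fun k => d * b k) = ang w a b := by
  unfold ang
  have e1 : ∑ k, w k * (c * a k * (d * b k)) = c * d * ∑ k, w k * (a k * b k) := by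
    rw [Finset.mul_sum]; exact Finset.sum_congr rfl fun k _ => by ring
  have e2 : ∀ (c : ℝ) (a : ι → ℝ), ∑ k, w k * (c * a k) ^ 2 = c ^ 2 * ∑ k, w k * a k ^ 2 :=
    fun c a => by rw [Finset.mul_sum]; exact Finset.sum_congr rfl fun k _ => by ring
  rw [e1, e2, e2, mul_mul_mul_comm, ← mul_pow, sqrt_mul (sq_nonneg _), sqrt_sq (by positivity),
    mul_div_mul_left _ _ (by positivity)]

theorem quad (W : J → ℝ) (n : ℕ) (q : Bool × Bool) (x y : ℝ) (x0 : 0 < x) (y0 : 0 < y) :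
    Ex p (n + 1) (fun l => ang (fun k => W (l k)) (fun k => fo q x ^ (k : ℕ))
      (fun k => fo q y ^ (k : ℕ))) =
    Ex p (n + 1) (fun l => ang (fun k => W (l k)) (fun k => x ^ (k : ℕ)) (fun k => y ^ (k : ℕ))) := by
  have sg : ∀ (w : Fin (n + 1) → ℝ) (x y : ℝ), ang w (fun k => (-x) ^ (k : ℕ)) (fun k => (-y) ^ (k : ℕ)) =
      ang w (fun k => x ^ (k : ℕ)) (fun k => y ^ (k : ℕ)) := by
    intro w x y
    unfold ang
    have : ∀ (x : ℝ) (k : ℕ), ((-x) ^ k) ^ 2 = (x ^ k) ^ 2 := fun x k => by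
      rw [sq, sq, ← mul_pow, ← mul_pow, neg_mul_neg]
    simp only [← mul_pow, neg_mul_neg, this]
  have iv : Ex p (n + 1) (fun l => ang (fun k => W (l k)) (fun k => x⁻¹ ^ (k : ℕ))
      (fun k => y⁻¹ ^ (k : ℕ))) =
      Ex p (n + 1) (fun l => ang (fun k => W (l k)) (fun k => x ^ (k : ℕ)) (fun k => y ^ (k : ℕ))) := by
    have e : ∀ x : ℝ, 0 < x → ∀ k : Fin (n + 1), x ^ n * x⁻¹ ^ (k : ℕ) = x ^ (k.rev : ℕ) := by
      intro x x0 k
      rw [Fin.val_rev, show n + 1 - (k + 1) = n - k by omega, pow_sub₀ _ x0.ne' (by omega), inv_pow]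
    refine Fintype.sum_equiv (Equiv.arrowCongr Fin.revPerm (Equiv.refl J)) _ _ fun l => ?_
    beta_reduce
    rw [← ang_scale _ _ _ (x ^ n) (y ^ n) (by positivity) (by positivity)]
    simp only [e x x0, e y y0]
    congr 1
    · exact Fintype.prod_equiv Fin.revPerm _ _ fun k => by simp
    · unfold ang
      congr 2
      · exact Fintype.sum_equiv Fin.revPerm _ _ fun k => by simp
      · congr 2 <;> exact Fintype.sum_equiv Fin.revPerm _ _ fun k => by simp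
  rcases q with ⟨_ | _, _ | _⟩ <;> simp only [fo, if_true, Bool.false_eq_true, if_false, one_mul,
    neg_one_mul, sg, iv]

theorem pt (A B C σ : ℝ) (A0 : 0 < A) (B0 : 0 < B) (σ0 : 0 ≤ σ)
    (h : σ ^ 2 * (A * B) ≤ A * B - C ^ 2) : σ ≤ arccos (C / √(A * B)) := by
  refine le_trans ?_ (sin_le (arccos_nonneg _))
  rw [sin_arccos, div_pow, sq_sqrt (by positivity)]
  refine le_sqrt_of_sq_le ?_
  rw [one_sub_div (by positivity), le_div_iff₀ (by positivity)]
  exact h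

theorem rand (W : J → ℝ) (p0 : ∀ j, 0 ≤ p j) (p1 : ∑ j, p j = 1) (hW : ∑ j, p j * W j = 1) (L : ℝ)
    (hL : ∑ j, p j * W j ^ 2 ≤ L) (a b : Fin N → ℝ) (V σ η lam : ℝ) (ha : ∀ k, a k ^ 2 ≤ 1)
    (hb : ∀ k, b k ^ 2 ≤ 1) (V0 : 0 < V) (hA : V ≤ ∑ k, a k ^ 2) (hB : V ≤ ∑ k, b k ^ 2)
    (ho : ∑ k, (b k - lam * a k) * a k = 0) (σ0 : 0 < σ)
    (hR : σ ^ 2 * ∑ k, b k ^ 2 ≤ ∑ k, (b k - lam * a k) ^ 2)
    (hr : ∀ k, (b k - lam * a k) ^ 2 ≤ 576 * σ ^ 2) (η0 : 0 < η) (η1 : η ≤ 1) :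
    σ * (1 - η) * (1 - 16 / η ^ 2 * (L * (579 / V))) ≤
      Ex p N fun l => ang (fun k => W (l k)) a b := by
  obtain ⟨r, hrd⟩ : ∃ r : Fin N → ℝ, ∀ k, r k = b k - lam * a k := ⟨_, fun _ => rfl⟩
  simp only [← hrd] at ho hR hr
  obtain ⟨A0, hA0⟩ : ∃ x, x = ∑ k, a k ^ 2 := ⟨_, rfl⟩
  obtain ⟨B0, hB0⟩ : ∃ x, x = ∑ k, b k ^ 2 := ⟨_, rfl⟩
  obtain ⟨R0, hR0⟩ : ∃ x, x = ∑ k, r k ^ 2 := ⟨_, rfl⟩
  rw [← hA0] at hA
  rw [← hB0] at hB hR
  rw [← hR0] at hR
  have a0 : 0 < A0 := V0.trans_le hA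
  have b0 : 0 < B0 := V0.trans_le hB
  have r0 : 0 < R0 := lt_of_lt_of_le (by positivity) hR
  have hU : ∑ j, p j * (W j - 1) = 0 := by simp only [mul_sub, Finset.sum_sub_distrib, hW, mul_one, p1, sub_self]
  have hv : ∑ j, p j * (W j - 1) ^ 2 ≤ L := by
    have : ∑ j, p j * (W j - 1) ^ 2 = ∑ j, (p j * W j ^ 2 - 2 * (p j * W j) + p j) :=
      Finset.sum_congr rfl fun j _ => by ring
    rw [this, Finset.sum_add_distrib, Finset.sum_sub_distrib, ← Finset.mul_sum, hW, p1]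
    linarith
  have v0 : 0 ≤ ∑ j, p j * (W j - 1) ^ 2 :=
    Finset.sum_nonneg fun j _ => mul_nonneg (p0 j) (sq_nonneg _)
  have vb : ∀ (c d : Fin N → ℝ) (K D : ℝ), 0 ≤ K → 0 < D → (∀ k, c k ^ 2 ≤ K / V * D * d k) →
      ∀ S, 0 < S → S = ∑ k, d k →
      Ex p N (fun l => (∑ k, (W (l k) - 1) * c k) ^ 2 / (D * S)) ≤ L * (K / V) := by
    intro c d K D K0 D0 h S S0 hS
    rw [Ex_div, Ex_var p1 (fun j => W j - 1) hU, div_le_iff₀ (by positivity)]
    have h1 := Finset.sum_le_sum (s := univ) fun k _ => h k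
    rw [← Finset.mul_sum, ← hS] at h1
    have := mul_le_mul hv h1 (Finset.sum_nonneg fun k _ => sq_nonneg _) (v0.trans hv)
    linarith
  have one : ∀ D x : ℝ, V ≤ D → x ^ 2 ≤ 1 → x ^ 2 ≤ 1 / V * D := fun D x h1 h2 =>
    h2.trans (by rw [one_div, ← div_eq_inv_mul, one_le_div V0]; exact h1)
  have v1 := vb (fun k => r k ^ 2) (fun k => r k ^ 2) 576 R0 (by norm_num) r0 (fun k => by
    rw [sq (r k ^ 2)]
    refine mul_le_mul_of_nonneg_right ((hr k).trans ?_) (sq_nonneg _)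
    rw [div_mul_eq_mul_div, le_div_iff₀ V0]
    have := mul_le_mul_of_nonneg_left hB (sq_nonneg σ)
    linarith) R0 r0 hR0
  have v2 := vb (fun k => a k ^ 2) (fun k => a k ^ 2) 1 A0 (by norm_num) a0 (fun k => by
    rw [sq (a k ^ 2)]
    exact mul_le_mul_of_nonneg_right (one _ _ hA (ha k)) (sq_nonneg _)) A0 a0 hA0
  have v3 := vb (fun k => b k ^ 2) (fun k => b k ^ 2) 1 B0 (by norm_num) b0 (fun k => by
    rw [sq (b k ^ 2)]
    exact mul_le_mul_of_nonneg_right (one _ _ hB (hb k)) (sq_nonneg _)) B0 b0 hB0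
  have v4 := vb (fun k => r k * a k) (fun k => r k ^ 2) 1 A0 (by norm_num) a0 (fun k => by
    rw [mul_pow, mul_comm]
    exact mul_le_mul_of_nonneg_right (one _ _ hA (ha k)) (sq_nonneg _)) R0 r0 hR0
  have c0 : 0 ≤ σ * (1 - η) := mul_nonneg σ0.le (by linarith)
  refine le_trans ?_ (Ex_mono p0 (f := fun l => σ * (1 - η) * (1 - 16 / η ^ 2 *
    ((∑ k, (W (l k) - 1) * r k ^ 2) ^ 2 / (R0 * R0) + (∑ k, (W (l k) - 1) * a k ^ 2) ^ 2 / (A0 * A0) +
    (∑ k, (W (l k) - 1) * b k ^ 2) ^ 2 / (B0 * B0) +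
    (∑ k, (W (l k) - 1) * (r k * a k)) ^ 2 / (A0 * R0)))) fun l => ?_)
  · rw [Ex_mul, Ex_sub, Ex_const p1, Ex_mul, Ex_add, Ex_add, Ex_add]
    refine mul_le_mul_of_nonneg_left (sub_le_sub_left (mul_le_mul_of_nonneg_left ?_ (by positivity)) _) c0
    have : L * (579 / V) = L * (576 / V) + L * (1 / V) + L * (1 / V) + L * (1 / V) := by ring
    linarith
  · simp only [sub_mul, one_mul, Finset.sum_sub_distrib, ← hA0, ← hB0, ← hR0, ho, sub_zero]
    obtain ⟨A, hA'⟩ : ∃ x, x = ∑ k, W (l k) * a k ^ 2 := ⟨_, rfl⟩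
    obtain ⟨R, hR'⟩ : ∃ x, x = ∑ k, W (l k) * r k ^ 2 := ⟨_, rfl⟩
    obtain ⟨X, hX'⟩ : ∃ x, x = ∑ k, W (l k) * (r k * a k) := ⟨_, rfl⟩
    obtain ⟨B, hB'⟩ : ∃ x, x = ∑ k, W (l k) * b k ^ 2 := ⟨_, rfl⟩
    have eB : B = R + 2 * lam * X + lam ^ 2 * A := by
      simp only [hB', hR', hX', hA', Finset.mul_sum, ← Finset.sum_add_distrib, hrd]
      exact Finset.sum_congr rfl fun k _ => by ring
    have eC : ∑ k, W (l k) * (a k * b k) = X + lam * A := by
      simp only [hX', hA', Finset.mul_sum, ← Finset.sum_add_distrib, hrd]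
      exact Finset.sum_congr rfl fun k _ => by ring
    unfold ang
    rw [eC, ← hA', ← hB', ← hR', ← hX']
    have q1 : 0 ≤ (R - R0) ^ 2 / (R0 * R0) := by positivity
    have q2 : 0 ≤ (A - A0) ^ 2 / (A0 * A0) := by positivity
    have q3 : 0 ≤ (B - B0) ^ 2 / (B0 * B0) := by positivity
    have q4 : 0 ≤ X ^ 2 / (A0 * R0) := by positivity
    obtain ⟨Q, hQ⟩ : ∃ Q, Q = (R - R0) ^ 2 / (R0 * R0) + (A - A0) ^ 2 / (A0 * A0) +
      (B - B0) ^ 2 / (B0 * B0) + X ^ 2 / (A0 * R0) := ⟨_, rfl⟩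
    rw [← hQ]
    have Q0 : 0 ≤ 16 / η ^ 2 * Q := mul_nonneg (by positivity) (by linarith)
    rcases le_or_gt 1 (16 / η ^ 2 * Q) with h | h
    · exact (mul_nonpos_of_nonneg_of_nonpos c0 (by linarith)).trans (arccos_nonneg _)
    refine le_trans (mul_le_of_le_one_right c0 (by linarith)) ?_
    rw [div_mul_eq_mul_div, div_lt_one (by positivity)] at h
    have dv : ∀ x D : ℝ, 0 < D → (x - D) ^ 2 / (D * D) ≤ Q → D * (1 - η / 4) ≤ x ∧ x ≤ D * (1 + η / 4) := by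
      intro x D D0 h1
      rw [div_le_iff₀ (by positivity)] at h1
      have h2 := mul_le_mul_of_nonneg_right h.le (show 0 ≤ D * D by positivity)
      have h3 := abs_le_of_sq_le_sq' (a := x - D) (b := D * η / 4) (by linarith) (by positivity)
      constructor <;> linarith [h3.1, h3.2]
    have d1 := (dv R R0 r0 (by linarith)).1
    have d2 := (dv A A0 a0 (by linarith)).1
    have d3 := dv B B0 b0 (by linarith)
    have d4 : X ^ 2 ≤ Q * (A0 * R0) := by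
      rw [← div_le_iff₀ (by positivity)]; linarith
    have e1 := mul_le_mul_of_nonneg_left η1 a0.le
    have e2 := mul_le_mul_of_nonneg_left η1 b0.le
    have Ap : 0 < A := by linarith
    refine pt A B _ _ Ap (by linarith [d3.1]) c0 ?_
    have f1 : 16 * Q ≤ η := h.le.trans (by rw [sq]; exact mul_le_of_le_one_right η0.le η1)
    have f2 := mul_le_mul f1 (mul_le_mul_of_nonneg_right (show A0 ≤ 4 / 3 * A by linarith) r0.le)
      (by positivity) η0.le
    have f3 := mul_le_mul_of_nonneg_left d1 Ap.le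
    have f4 : (1 - η) ^ 2 * (1 + η / 4) ≤ 1 - η / 3 := by nlinarith [mul_nonneg η0.le (sub_nonneg.2 η1)]
    have f5 : σ ^ 2 * B ≤ R0 * (1 + η / 4) := by
      have := mul_le_mul_of_nonneg_left d3.2 (sq_nonneg σ)
      have := mul_le_mul_of_nonneg_right hR (show 0 ≤ 1 + η / 4 by linarith)
      linarith
    have f6 := mul_le_mul_of_nonneg_left f5 (show 0 ≤ (1 - η) ^ 2 * A by positivity)
    have f7 := mul_le_mul_of_nonneg_right f4 (show 0 ≤ A * R0 by positivity)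
    have e3 : A * B - (X + lam * A) ^ 2 = A * R - X ^ 2 := by rw [eB]; ring
    rw [e3]
    linarith

end Pool.Agent.H.MP_a7dd25_pr
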