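import Pool.Agent.H.MP_a7dd25_pr.B

set_option autoImplicit false

namespace Pool.Agent.H.MP_a7dd25_pr

open Real Finset

variable {J : Type} [Fintype J] {p : J → ℝ}

theorem pd1 (x y : ℝ) (x0 : 0 ≤ x) (h : x ≤ y) (k : ℕ) :
    y * (y ^ k - x ^ k) ≤ k * y ^ k * (y - x) := by
  induction k with
  | zero => simp
  | succ k ih =>
    have h1 := mul_le_mul_of_nonneg_left ih (x0.trans h)
    have h2 := mul_le_mul_of_nonneg_right (pow_le_pow_left₀ x0 h k)
      (mul_nonneg (x0.trans h) (sub_nonneg.2 h))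
    push_cast
    rw [pow_succ, pow_succ]
    linarith

theorem pd2 (x y : ℝ) (x0 : 0 ≤ x) (h : x ≤ y) (y1 : y ≤ 1) (k : ℕ) :
    (y ^ k - x ^ k) * (1 - y) ≤ y - x := by
  induction k with
  | zero => simpa using h
  | succ k ih =>
    have h1 := mul_le_mul_of_nonneg_left ih (x0.trans h)
    have h2 := mul_le_mul_of_nonneg_right (pow_le_one₀ (n := k) x0 (h.trans y1))
      (mul_nonneg (sub_nonneg.2 h) (sub_nonneg.2 y1))
    rw [pow_succ, pow_succ]
    linarith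

theorem geo (N : ℕ) (z : ℝ) : (∑ k : Fin N, z ^ (k : ℕ)) * (1 - z) = 1 - z ^ N := by
  rw [Fin.sum_univ_eq_sum_range (fun k => z ^ k) N, geom_sum_mul_neg]

theorem sqp (z : ℝ) (k : ℕ) : (z ^ k) ^ 2 = (z ^ 2) ^ k := by rw [← pow_mul, ← pow_mul, mul_comm]

theorem step (W : J → ℝ) (p0 : ∀ j, 0 ≤ p j) (p1 : ∑ j, p j = 1) (hW : ∑ j, p j * W j = 1) (L : ℝ)
    (hL : ∑ j, p j * W j ^ 2 ≤ L) (N : ℕ) (N0 : 0 < N) (x y δ Z η : ℝ) (Z0 : 0 < Z) (x0 : 1 / 2 ≤ x)
    (xy : x < y) (y1 : y < 1) (h1 : 1 - x ≤ 2 * (1 - y)) (h2 : (1 - x) * Z ≤ 2)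
    (h3 : 2 ≤ 3 * Z * (1 - y)) (δ0 : 0 < δ) (δ1 : δ ≤ 1) (hδ : y - x = δ * (1 - x * y)) (η0 : 0 < η)
    (η1 : η ≤ 1) (hη : L ≤ η ^ 4 * Z) :
    δ * (1 - 74113 * η - 144 * (Z / N)) ≤
      Ex p N fun l => ang (fun k => W (l k)) (fun k => x ^ (k : ℕ)) (fun k => y ^ (k : ℕ)) := by
  have N0' : (0 : ℝ) < N := by exact_mod_cast N0
  obtain ⟨ω, hω⟩ : ∃ ω, ω = Z / N := ⟨_, rfl⟩
  have ω0 : 0 < ω := by rw [hω]; positivity
  have eω : Z = ω * N := by rw [hω]; field_simp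
  rw [← hω]
  rcases le_or_gt 1 (144 * ω) with hc | hc
  · refine le_trans (mul_nonpos_of_nonneg_of_nonpos δ0.le (by linarith)) ?_
    rw [← Ex_const (N := N) p1 0]
    exact Ex_mono p0 fun l => arccos_nonneg _
  have xp : 0 < x := by linarith
  have yp : 0 < y := by linarith
  obtain ⟨X, hX⟩ : ∃ X, X = x ^ N := ⟨_, rfl⟩
  obtain ⟨Y, hY⟩ : ∃ Y, Y = y ^ N := ⟨_, rfl⟩
  have X0 : 0 ≤ X := by rw [hX]; positivity
  have XY : X ≤ Y := by rw [hX, hY]; exact pow_le_pow_left₀ xp.le xy.le N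
  have Y1 : Y ≤ 9 / 2 * ω ^ 2 := by
    have a1 : Y * exp (N * (1 - y)) ≤ 1 := by
      rw [hY, exp_nat_mul, ← mul_pow]
      refine pow_le_one₀ (by positivity) ?_
      have := add_one_le_exp (-(1 - y))
      rw [exp_neg, le_inv_comm₀ (by linarith) (exp_pos _)] at this
      have h := mul_le_mul_of_nonneg_left this yp.le
      rwa [show -(1 - y) + 1 = y by ring, mul_inv_cancel₀ yp.ne'] at h
    have t0 : 0 ≤ N * (1 - y) := mul_nonneg N0'.le (by linarith)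
    have a2 := mul_le_mul_of_nonneg_left (quadratic_le_exp_of_nonneg t0) (X0.trans XY)
    have a3 : (2 : ℝ) ^ 2 ≤ (3 * ω * (N * (1 - y))) ^ 2 :=
      pow_le_pow_left₀ (by norm_num) (by rw [eω] at h3; linarith) 2
    have a4 := mul_le_mul_of_nonneg_left a3 (X0.trans XY)
    have a5 : Y * (N * (1 - y)) ^ 2 ≤ 2 := by
      have := mul_nonneg (X0.trans XY) t0
      linarith
    have a6 := mul_le_mul_of_nonneg_left a5 (sq_nonneg ω)
    linarith
  have Y2 : Y ≤ 1 / 2 := by nlinarith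
  have u1 : 1 - x * y ≤ 2 * (1 - x) := by nlinarith
  have u0 : 0 < 1 - x * y := by nlinarith
  have XY1 : 1 / 2 ≤ 1 - X * Y := by nlinarith
  obtain ⟨Δ, hΔ⟩ : ∃ Δ, Δ = (Y - X) / (1 - X * Y) := ⟨_, rfl⟩
  have eΔ : Y - X = Δ * (1 - X * Y) := by rw [hΔ, div_mul_cancel₀ _ (by linarith : (1 - X * Y) ≠ 0)]
  have Δ0 : 0 ≤ Δ := by rw [hΔ]; exact div_nonneg (by linarith) (by linarith)
  have Δ1 : Δ ≤ 72 * δ * ω := by
    have a1 := pd1 x y xp.le xy.le N
    rw [← hX, ← hY] at a1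
    have a2 := mul_le_mul_of_nonneg_right (show 1 / 2 ≤ y by linarith) (sub_nonneg.2 XY)
    have a3 := mul_le_mul_of_nonneg_left XY1 Δ0
    have a4 : (y - x) * Z ≤ 4 * δ := by
      have := mul_le_mul_of_nonneg_left ((mul_le_mul_of_nonneg_right u1 Z0.le).trans
        (show 2 * (1 - x) * Z ≤ 4 by linarith)) δ0.le
      rw [hδ]; linarith
    have a5 := mul_le_mul Y1 (le_refl (N * (y - x))) (mul_nonneg N0'.le (by linarith)) (by positivity)
    have a6 := mul_le_mul_of_nonneg_left a4 ω0.le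
    rw [eω] at a6
    linarith
  obtain ⟨A, hA⟩ : ∃ A, A = ∑ k : Fin N, (x ^ (k : ℕ)) ^ 2 := ⟨_, rfl⟩
  obtain ⟨B, hB⟩ : ∃ A, A = ∑ k : Fin N, (y ^ (k : ℕ)) ^ 2 := ⟨_, rfl⟩
  obtain ⟨C, hC⟩ : ∃ A, A = ∑ k : Fin N, y ^ (k : ℕ) * x ^ (k : ℕ) := ⟨_, rfl⟩
  obtain ⟨S, hS⟩ : ∃ A, A = ∑ k : Fin N, x ^ (k : ℕ) := ⟨_, rfl⟩
  have gA : A * (1 - x ^ 2) = 1 - X ^ 2 := by
    rw [hA, hX, sqp, ← geo N]; exact congrArg (· * _) (Finset.sum_congr rfl fun k _ => sqp x k)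
  have gB : B * (1 - y ^ 2) = 1 - Y ^ 2 := by
    rw [hB, hY, sqp, ← geo N]; exact congrArg (· * _) (Finset.sum_congr rfl fun k _ => sqp y k)
  have gC : C * (1 - x * y) = 1 - X * Y := by
    rw [hC, hX, hY, ← mul_pow, ← geo]; simp only [mul_pow, mul_comm]
  have gS : S * (1 - x) = 1 - X := by rw [hS, hX, geo]
  have A0 : 0 ≤ A := hA ▸ Finset.sum_nonneg fun k _ => sq_nonneg _
  have S0 : 0 ≤ S := hS ▸ Finset.sum_nonneg fun k _ => pow_nonneg xp.le _
  have VA : Z / 8 ≤ A := by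
    have a1 := mul_le_mul_of_nonneg_left (show 1 - x ^ 2 ≤ 2 * (1 - x) by nlinarith) A0
    have a2 := mul_le_mul_of_nonneg_left h2 A0
    have a3 := mul_le_mul_of_nonneg_right (show 1 / 2 ≤ A * (2 * (1 - x)) by nlinarith) Z0.le
    linarith
  have Ap : 0 < A := by linarith
  have dk : ∀ k : ℕ, 0 ≤ y ^ k - x ^ k ∧ y ^ k - x ^ k ≤ 4 * δ := fun k => by
    refine ⟨sub_nonneg.2 (pow_le_pow_left₀ xp.le xy.le k),
      le_of_mul_le_mul_right ((pd2 x y xp.le xy.le y1.le k).trans ?_) (sub_pos.2 y1)⟩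
    have := mul_le_mul_of_nonneg_left (show 1 - x * y ≤ 4 * (1 - y) by linarith) δ0.le
    linarith
  have AB : A ≤ B := by
    rw [hA, hB]
    exact Finset.sum_le_sum fun k _ => pow_le_pow_left₀ (by positivity) (by linarith [(dk k).1]) 2
  have SA : S ≤ 2 * A := by
    have : A * (1 + x) = S * (1 + X) :=
      mul_right_cancel₀ (show 1 - x ≠ 0 by linarith) (by linear_combination gA - (1 + X) * gS)
    have a1 := mul_nonneg S0 X0
    have a2 := mul_le_mul_of_nonneg_left (show x ≤ 1 by linarith) A0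
    linarith
  obtain ⟨lam, hlam⟩ : ∃ lam, lam = C / A := ⟨_, rfl⟩
  have el : C = lam * A := by rw [hlam]; field_simp
  have l1 : 0 ≤ lam - 1 ∧ lam - 1 ≤ 8 * δ := by
    have e : C - A = ∑ k : Fin N, (y ^ (k : ℕ) - x ^ (k : ℕ)) * x ^ (k : ℕ) := by
      rw [hC, hA, ← Finset.sum_sub_distrib]; exact Finset.sum_congr rfl fun k _ => by ring
    have a1 : 0 ≤ C - A := e ▸ Finset.sum_nonneg fun k _ => mul_nonneg (dk k).1 (by positivity)
    have a2 : C - A ≤ 4 * δ * S := by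
      rw [e, hS, Finset.mul_sum]
      exact Finset.sum_le_sum fun k _ => mul_le_mul_of_nonneg_right (dk k).2 (by positivity)
    have a3 := mul_le_mul_of_nonneg_left SA δ0.le
    exact ⟨le_of_mul_le_mul_right (by linarith) Ap, le_of_mul_le_mul_right (by linarith) Ap⟩
  have p1' : ∀ (z : ℝ) (k : ℕ), 0 ≤ z → z ≤ 1 → (z ^ k) ^ 2 ≤ 1 := fun z k h0 h1 =>
    pow_le_one₀ (by positivity) (pow_le_one₀ h0 h1)
  obtain ⟨σ, hσ⟩ : ∃ σ, σ = δ * (1 - 72 * ω) := ⟨_, rfl⟩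
  have dω := mul_le_mul_of_nonneg_left hc.le δ0.le
  have σ1 : δ / 2 ≤ σ := by rw [hσ]; linarith
  have R := rand W p0 p1 hW L hL (fun k : Fin N => x ^ (k : ℕ)) (fun k => y ^ (k : ℕ)) (Z / 8) σ η lam
    (fun k => p1' x k xp.le (by linarith)) (fun k => p1' y k yp.le y1.le) (by positivity)
    (hA ▸ VA) (hB ▸ VA.trans AB) (by
      rw [← sub_eq_zero.2 el, hC, hA, Finset.mul_sum, ← Finset.sum_sub_distrib]
      exact Finset.sum_congr rfl fun k _ => by ring) (by linarith) (by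
      have e : ∑ k : Fin N, (y ^ (k : ℕ) - lam * x ^ (k : ℕ)) ^ 2 = B - 2 * lam * C + lam ^ 2 * A := by
        rw [hB, hC, hA, Finset.mul_sum, Finset.mul_sum, ← Finset.sum_sub_distrib,
          ← Finset.sum_add_distrib]
        exact Finset.sum_congr rfl fun k _ => by ring
      rw [e, ← hB]
      have id : C ^ 2 * (1 - Δ ^ 2) = (1 - δ ^ 2) * (A * B) := by
        refine mul_right_cancel₀ (pow_pos u0 2).ne' ?_
        have b1 : (C * (1 - x * y)) ^ 2 = (1 - X * Y) ^ 2 := by rw [gC]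
        have b2 : (Y - X) ^ 2 = (Δ * (1 - X * Y)) ^ 2 := by rw [eΔ]
        have b3 : (y - x) ^ 2 = (δ * (1 - x * y)) ^ 2 := by rw [hδ]
        have b4 : A * (1 - x ^ 2) * (B * (1 - y ^ 2)) = (1 - X ^ 2) * (1 - Y ^ 2) := by rw [gA, gB]
        linear_combination (1 - Δ ^ 2) * b1 + b2 - A * B * b3 - b4
      have P0 : 0 ≤ A * B := mul_nonneg A0 (A0.trans AB)
      have b1 : σ ^ 2 ≤ (δ - Δ) ^ 2 := pow_le_pow_left₀ (by linarith) (by rw [hσ]; linarith) 2
      have b2 := mul_nonneg Δ0 (show 0 ≤ δ - Δ by linarith)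
      have b3 := mul_le_mul_of_nonneg_right (show σ ^ 2 ≤ δ ^ 2 - Δ ^ 2 by linarith) P0
      have b4 : 0 < 1 - Δ ^ 2 := by nlinarith
      have b5 : 0 ≤ A * B - C ^ 2 := by
        have := mul_nonneg (sq_nonneg σ) P0
        exact le_of_mul_le_mul_right (by linarith) b4
      have b6 := mul_nonneg b5 (sq_nonneg Δ)
      refine le_of_mul_le_mul_right ?_ Ap
      have b7 : (B - 2 * lam * C + lam ^ 2 * A) * A = A * B - C ^ 2 := by rw [el]; ring
      linarith) (fun k => by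
      have a1 : x ^ (k : ℕ) ≤ 1 := pow_le_one₀ xp.le (by linarith)
      have a2 := mul_le_mul l1.2 a1 (by positivity) (by positivity)
      have a3 := mul_nonneg l1.1 (show 0 ≤ x ^ (k : ℕ) by positivity)
      refine le_trans (sq_le_sq' (b := 16 * σ) ?_ ?_) (by nlinarith [sq_nonneg σ])
      · linarith [(dk k).1]
      · linarith [(dk k).2]) η0 η1
  refine le_trans ?_ R
  obtain ⟨c, hc'⟩ : ∃ c, c = 16 / η ^ 2 * (L * (579 / (Z / 8))) := ⟨_, rfl⟩
  have c1 : c ≤ 74112 * η := by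
    have : c = 74112 * (L / (η ^ 2 * Z)) := by rw [hc']; field_simp; ring
    rw [this]
    refine mul_le_mul_of_nonneg_left ?_ (by norm_num)
    rw [div_le_iff₀ (by positivity)]
    have := mul_le_mul_of_nonneg_right η1 (show 0 ≤ η ^ 3 * Z by positivity)
    linarith
  rw [← hc', hσ, mul_assoc, mul_assoc]
  refine mul_le_mul_of_nonneg_left ?_ δ0.le
  have a1 : 0 ≤ (1 - 72 * ω) * (1 - η) := mul_nonneg (by linarith) (by linarith)
  have a2 := mul_le_mul_of_nonneg_left c1 a1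
  have a3 : (1 - 72 * ω) * (1 - η) ≤ 1 := mul_le_one₀ (by linarith) (by linarith) (by linarith)
  have a4 := mul_le_mul_of_nonneg_right a3 η0.le
  have a5 := mul_pos ω0 η0
  linarith

theorem bulk (W : J → ℝ) (p0 : ∀ j, 0 ≤ p j) (p1 : ∑ j, p j = 1) (hW : ∑ j, p j * W j = 1) (L : ℝ)
    (hL : ∑ j, p j * W j ^ 2 ≤ L) (L4 : 4 ≤ L) (N : ℕ) (N1 : 15 ≤ N) (N2 : L ≤ N) :
    ∃ (T : ℕ) (u : ℕ → ℝ), StrictMono u ∧ (∀ i, 1 / 2 ≤ u i ∧ u i < 1) ∧
      (log N - log L) / 2 - 2000000 ≤ ∑ i ∈ range T, Ex p N fun l =>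
        ang (fun k => W (l k)) (fun k => u i ^ (k : ℕ)) (fun k => u (i + 1) ^ (k : ℕ)) := by
  have N1' : (15 : ℝ) ≤ N := by exact_mod_cast N1
  obtain ⟨h, hh⟩ : ∃ h : ℝ, h = 1 / N := ⟨_, rfl⟩
  have h0 : 0 < h := by rw [hh]; positivity
  have hN : h * N = 1 := by rw [hh]; field_simp
  have h1 : h ≤ 1 / 15 := by nlinarith
  obtain ⟨r, hr⟩ : ∃ r, r = (1 + h) ^ 4 := ⟨_, rfl⟩
  have r1 : 1 < r := by rw [hr]; exact one_lt_pow₀ (by linarith) (by norm_num)
  have r2 : r - 1 ≤ 15 * h := by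
    have a2 : h ^ 2 ≤ h := by nlinarith
    have a3 : h ^ 3 ≤ h := by nlinarith
    have a4 : h ^ 4 ≤ h := by nlinarith
    rw [hr]; linarith
  obtain ⟨T, T1, T2⟩ := exists_nat_pow_near (x := N / L) (by rwa [one_le_div (by linarith)]) r1
  rw [le_div_iff₀' (by linarith)] at T1
  rw [div_lt_iff₀' (by linarith)] at T2
  obtain ⟨Z, hZ⟩ : ∃ Z : ℕ → ℝ, ∀ i, Z i = L * r ^ i := ⟨_, fun _ => rfl⟩
  have Z4 : ∀ i, 4 ≤ Z i := fun i => by
    rw [hZ]; exact L4.trans (le_mul_of_one_le_right (by linarith) (one_le_pow₀ r1.le))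
  have Zs : ∀ i, Z (i + 1) = r * Z i := fun i => by rw [hZ, hZ]; ring
  have lt : ∀ i, (Z i - 1) / (Z i + 1) < (Z (i + 1) - 1) / (Z (i + 1) + 1) := fun i => by
    have := Z4 i
    have := mul_lt_mul_of_pos_right r1 (show 0 < Z i by linarith)
    rw [Zs, div_lt_div_iff₀ (by linarith) (by linarith)]; linarith
  have b1 : ∀ i, 1 / 2 ≤ (Z i - 1) / (Z i + 1) ∧ (Z i - 1) / (Z i + 1) < 1 := fun i => by
    have := Z4 i
    rw [le_div_iff₀ (by linarith), div_lt_one (by linarith)]; constructor <;> linarith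
  refine ⟨T, fun i => (Z i - 1) / (Z i + 1), strictMono_nat_of_lt_succ lt, b1, ?_⟩
  obtain ⟨δ, hδ⟩ : ∃ δ, δ = (r - 1) / (r + 1) := ⟨_, rfl⟩
  have eδ : δ * (r + 1) = r - 1 := by rw [hδ]; field_simp
  have δ0 : 0 < δ := by rw [hδ]; exact div_pos (by linarith) (by linarith)
  have δ1 : 2 * δ ≤ r - 1 := by nlinarith
  refine le_trans ?_ (Finset.sum_le_sum fun i _ => step W p0 p1 hW L hL N (by omega) _ _ δ (Z i)
    ((1 + h)⁻¹ ^ i) (by linarith [Z4 i]) (b1 i).1 (lt i) (b1 (i + 1)).2 ?_ ?_ ?_ δ0 (by linarith) ?_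
    (by positivity) (pow_le_one₀ (by positivity) (inv_le_one_of_one_le₀ (by linarith))) ?_)
  · have s1 : (∑ i ∈ range T, (1 + h)⁻¹ ^ i) * h ≤ 2 := by
      have a1 := geom_sum_mul_neg (1 + h)⁻¹ T
      have a2 : 0 ≤ (1 + h)⁻¹ ^ T := by positivity
      have a3 : h = (1 - (1 + h)⁻¹) * (1 + h) := by field_simp; ring
      have a4 := mul_le_mul_of_nonneg_right (show 1 - (1 + h)⁻¹ ^ T ≤ 1 by linarith)
        (show 0 ≤ 1 + h by linarith)
      rw [← a1, mul_assoc, ← a3] at a4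
      linarith
    have s2 : (∑ i ∈ range T, Z i) * (r - 1) ≤ N := by
      simp only [hZ, ← Finset.mul_sum, mul_assoc, geom_sum_mul]
      linarith
    have s3 : log N - log L - 1 ≤ T * (r - 1) := by
      have a1 := log_lt_log (by linarith) T2
      rw [log_mul (by linarith) (by positivity), log_pow] at a1
      have a2 := mul_le_mul_of_nonneg_left (log_le_sub_one_of_pos (show 0 < r by linarith))
        (show (0 : ℝ) ≤ (T + 1 : ℕ) by positivity)
      push_cast at a1 a2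
      linarith
    have s4 : T * (r - 1) ≤ N := by
      have a1 := one_add_mul_sub_le_pow (show -1 ≤ r by linarith) T
      have a2 := mul_le_mul_of_nonneg_right L4 (show 0 ≤ r ^ T by positivity)
      have a3 : 0 ≤ r ^ T := by positivity
      linarith
    have s5 := mul_le_mul s4 r2 (by linarith) (by positivity)
    have s6 : (r - 1) / 2 - (r - 1) * (r - 1) / 4 ≤ δ := by nlinarith
    have s7 := mul_le_mul_of_nonneg_left s6 (Nat.cast_nonneg (α := ℝ) T)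
    have s8 := mul_le_mul_of_nonneg_left (show δ ≤ 15 / 2 * h by linarith)
      (show 0 ≤ ∑ i ∈ range T, (1 + h)⁻¹ ^ i by positivity)
    have s9 := mul_le_mul_of_nonneg_left (show δ ≤ r - 1 by linarith)
      (Finset.sum_nonneg (s := range T) fun i _ => show 0 ≤ Z i by linarith [Z4 i])
    have s10 : δ * ((∑ i ∈ range T, Z i) / N) ≤ 1 := by
      rw [← mul_div_assoc, div_le_one (by linarith)]; linarith
    rw [← Finset.mul_sum, Finset.sum_sub_distrib, Finset.sum_sub_distrib, ← Finset.mul_sum,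
      ← Finset.mul_sum, ← Finset.sum_div]
    simp only [sum_const, card_range, nsmul_eq_mul, mul_one]
    linarith
  all_goals
    beta_reduce
    have z4 := Z4 i
    have z5 := mul_le_mul_of_nonneg_right (show r ≤ 2 by linarith) (show 0 ≤ Z i by linarith)
    have z6 : 0 < r * Z i + 1 := by positivity
    have z7 : 0 < Z i + 1 := by positivity
    have e1 : 1 - (Z i - 1) / (Z i + 1) = 2 / (Z i + 1) := by field_simp; ring
    have e2 : 1 - (r * Z i - 1) / (r * Z i + 1) = 2 / (r * Z i + 1) := by field_simp; ring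
  · rw [Zs, e1, e2, ← mul_div_assoc, div_le_div_iff₀ z7 z6]; linarith
  · rw [e1, div_mul_eq_mul_div, div_le_iff₀ z7]; linarith
  · rw [Zs, e2, ← mul_div_assoc, le_div_iff₀ z6]; linarith
  · rw [Zs, hδ]; field_simp; ring
  · rw [hZ, hr, pow_right_comm, ← mul_assoc, mul_comm _ L, mul_assoc, ← mul_pow, ← mul_pow,
      inv_mul_cancel₀ (by linarith)]
    simp

end Pool.Agent.H.MP_a7dd25_pr
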