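import Pool.Agent.H.MP_a7dd25_pr.C

set_option autoImplicit false

namespace Pool.Agent.H.MP_a7dd25_pr

open Real Finset

variable {J : Type} [Fintype J] {p : J → ℝ}

theorem third {ι : Type} [Fintype ι] [DecidableEq ι] (w a b : ι → ℝ) (w0 : ∀ k, 0 ≤ w k) (i : ι)
    (h1 : 16 * ∑ k ∈ univ.erase i, w k * a k ^ 2 ≤ w i * a i ^ 2)
    (h2 : 16 * (w i * b i ^ 2) ≤ ∑ k, w k * b k ^ 2) : π / 3 ≤ ang w a b := by
  have na : ∀ k, 0 ≤ w k * a k ^ 2 := fun k => mul_nonneg (w0 k) (sq_nonneg _)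
  have nb : ∀ k, 0 ≤ w k * b k ^ 2 := fun k => mul_nonneg (w0 k) (sq_nonneg _)
  have cs := sum_sq_le_sum_mul_sum_of_sq_le_mul (univ.erase i) (r := fun k => w k * (a k * b k))
    (fun k _ => na k) (fun k _ => nb k) (fun k _ => le_of_eq (by ring))
  have eA := add_sum_erase univ (fun k => w k * a k ^ 2) (mem_univ i)
  have eB := add_sum_erase univ (fun k => w k * b k ^ 2) (mem_univ i)
  have eC := add_sum_erase univ (fun k => w k * (a k * b k)) (mem_univ i)
  have A1 : 0 ≤ ∑ k ∈ univ.erase i, w k * a k ^ 2 := sum_nonneg fun k _ => na k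
  have B1 : 0 ≤ ∑ k ∈ univ.erase i, w k * b k ^ 2 := sum_nonneg fun k _ => nb k
  rw [ang, ← arccos_cos (x := π / 3) (by positivity) (by linarith [pi_pos]), cos_pi_div_three]
  refine arccos_le_arccos (div_le_of_le_mul₀ (sqrt_nonneg _) (by norm_num) ?_)
  beta_reduce at eA eB eC cs
  obtain ⟨A, hA⟩ : ∃ A, A = ∑ k, w k * a k ^ 2 := ⟨_, rfl⟩
  obtain ⟨B, hB⟩ : ∃ A, A = ∑ k, w k * b k ^ 2 := ⟨_, rfl⟩
  rw [← eC, ← hA, ← hB]
  rw [← hA] at eA
  rw [← hB] at eB h2
  have a0 := na i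
  have b0 := nb i
  have G := sq_sqrt (mul_nonneg (show 0 ≤ A by linarith) (show 0 ≤ B by linarith))
  have G0 := sqrt_nonneg (A * B)
  have c1 : w i * (a i * b i) ≤ √(A * B) / 4 := by
    refine le_trans (le_abs_self _) (abs_le_of_sq_le_sq ?_ (by linarith))
    have := mul_le_mul (show w i * a i ^ 2 ≤ A by linarith) h2 (by linarith) (by linarith)
    linarith
  have c2 : ∑ k ∈ univ.erase i, w k * (a k * b k) ≤ √(A * B) / 4 := by
    refine le_trans (le_abs_self _) (abs_le_of_sq_le_sq ?_ (by linarith))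
    have := mul_le_mul (show 16 * ∑ k ∈ univ.erase i, w k * a k ^ 2 ≤ A by linarith)
      (show ∑ k ∈ univ.erase i, w k * b k ^ 2 ≤ B by linarith) B1 (by linarith)
    linarith
  linarith

theorem prodite (N : ℕ) (k : Fin N) (a b : ℝ) :
    ∏ i : Fin N, (if i < k then a else if i = k then b else 1) = a ^ (k : ℕ) * b := by
  have : ∀ i : Fin N, (if i < k then a else if i = k then b else 1) =
      (if (i : ℕ) < k then a else 1) * (if i = k then b else 1) := fun i => by
    by_cases h : i < k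
    · simp [h, h.ne, Fin.lt_def.1 h]
    · simp [h, mt Fin.lt_def.2 h]
  simp only [this, prod_mul_distrib, prod_ite_eq', mem_univ, if_true]
  rw [← prod_filter, prod_const, Fin.card_filter_val_lt, min_eq_right k.2.le]

theorem near [DecidableEq J] (W : J → ℝ) (p0 : ∀ j, 0 ≤ p j) (p1 : ∑ j, p j = 1) (W0 : ∀ j, 0 ≤ W j)
    (lo : J → Prop) [DecidablePred lo] (j z : J) (K N : ℕ) (KN : K ≤ N) (x y : ℝ) (x0 : 0 < x)
    (x1 : x ≤ 1 / 2) (y0 : 0 < y) (y1 : y ≤ 1) (hj : ¬ lo j) (hz : ∀ i, W i ≤ W z)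
    (hlo : ∀ i, lo i → W i ≤ (1 / 2) ^ K / 32 * W j * x ^ (2 * K))
    (hx : x ^ 2 * W z ≤ (1 / 2) ^ K / 32 * W j) (hy : 16 * W j ≤ W z * y ^ (2 * K))
    (hq : ∑ i, p i * (if lo i then 1 else 0) = 1 - 2 * p j) (pz : p z ≤ 2 * p j)
    (hK : (1 - p z) ^ K ≤ 1 / 15) :
    π / 3 * (2 / 5) ≤
      Ex p N fun l => ang (fun k => W (l k)) (fun k => x ^ (k : ℕ)) (fun k => y ^ (k : ℕ)) := by
  obtain ⟨g, hg⟩ : ∃ g : Fin N → Fin N → J → ℝ, ∀ k k' i, g k k' i =
      if k' < k then (if lo i then 1 else 0) else if k' = k then (if i = j then 1 else 0) else 1 :=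
    ⟨_, fun _ _ _ => rfl⟩
  obtain ⟨b, hb⟩ : ∃ b : Fin N → J → ℝ, ∀ k i, b k i =
      if (k : ℕ) < K then (if i = z then 0 else 1) else 1 := ⟨_, fun _ _ => rfl⟩
  refine le_trans ?_ (Ex_mono p0 (f := fun l => π / 3 *
    (∑ k : Fin K, ∏ k', g (k.castLE KN) k' (l k') - ∏ k', b k' (l k'))) fun l => ?_)
  · rw [Ex_mul, Ex_sub, Ex_sum, Ex_prod]
    refine mul_le_mul_of_nonneg_left ?_ (by positivity)
    have e1 : ∀ k : Fin K, Ex p N (fun l => ∏ k', g (k.castLE KN) k' (l k')) =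
        (1 - 2 * p j) ^ (k : ℕ) * p j := fun k => by
      rw [Ex_prod, ← Fin.val_castLE KN k, ← prodite]
      refine prod_congr rfl fun k' _ => ?_
      simp only [hg]
      split_ifs
      · exact hq
      · simp
      · simpa using p1
    have e2 : ∏ k : Fin N, ∑ i, p i * b k i = (1 - p z) ^ K := by
      have : ∀ k : Fin N, ∑ i, p i * b k i = if (k : ℕ) < K then 1 - p z else 1 := fun k => by
        simp only [hb]
        split_ifs
        · rw [← add_sum_erase univ _ (mem_univ z), eq_sub_iff_add_eq', if_pos rfl, mul_zero, zero_add,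
            sum_congr rfl fun i hi => by rw [if_neg (ne_of_mem_erase hi), mul_one],
            add_sum_erase univ p (mem_univ z), p1]
        · simpa using p1
      simp only [this]
      rw [← prod_filter, prod_const, Fin.card_filter_val_lt, min_eq_right KN]
    simp only [e1, e2, ← sum_mul]
    have h1 := geo K (1 - 2 * p j)
    have h2 : (1 - 2 * p j) ^ K ≤ (1 - p z) ^ K :=
      pow_le_pow_left₀ (hq ▸ sum_nonneg fun i _ => mul_nonneg (p0 i) (by positivity)) (by linarith) K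
    linarith
  have b0 : 0 ≤ ∏ k', b k' (l k') := prod_nonneg fun k _ => by rw [hb]; positivity
  have an := arccos_nonneg
  by_cases h : ∃ k : Fin K, l (k.castLE KN) = j ∧ ∀ k' < k.castLE KN, lo (l k')
  swap
  · push Not at h
    rw [sum_eq_zero fun k _ => ?_]
    · exact le_trans (mul_nonpos_of_nonneg_of_nonpos (by positivity) (by linarith)) (an _)
    by_cases h1 : l (k.castLE KN) = j
    · obtain ⟨k', h2, h3⟩ := h k h1
      exact prod_eq_zero (mem_univ k') (by rw [hg, if_pos h2, if_neg h3])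
    · exact prod_eq_zero (mem_univ (k.castLE KN)) (by rw [hg]; simp [h1])
  obtain ⟨k, h1, h2⟩ := h
  have s1 : ∑ k : Fin K, ∏ k', g (k.castLE KN) k' (l k') = 1 := by
    rw [sum_eq_single k (fun k2 _ hk => ?_) (by simp)]
    · refine prod_eq_one fun k' _ => ?_
      rw [hg]
      by_cases c1 : k' < k.castLE KN
      · rw [if_pos c1, if_pos (h2 _ c1)]
      · rw [if_neg c1]
        by_cases c2 : k' = k.castLE KN
        · rw [if_pos c2, c2, if_pos h1]
        · rw [if_neg c2]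
    rcases lt_or_gt_of_ne hk with c | c
    · refine prod_eq_zero (mem_univ (k2.castLE KN)) ?_
      have : l (k2.castLE KN) ≠ j := fun e => hj (e ▸ h2 _ c)
      rw [hg]; simp [this]
    · refine prod_eq_zero (mem_univ (k.castLE KN)) ?_
      rw [hg, if_pos (show k.castLE KN < k2.castLE KN from c), h1, if_neg hj]
  rw [s1]
  by_cases h : ∃ k' : Fin N, (k' : ℕ) < K ∧ l k' = z
  swap
  · push Not at h
    rw [prod_eq_one fun k' _ => ?_, sub_self, mul_zero]
    · exact an _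
    rw [hb]
    split_ifs with c1 c2
    exacts [absurd c2 (h _ c1), rfl, rfl]
  obtain ⟨k', c1, c2⟩ := h
  refine le_trans (mul_le_of_le_one_right (by positivity) (by linarith))
    (third _ _ _ (fun k => W0 _) (k.castLE KN) ?_ ?_)
  · obtain ⟨a, ha⟩ : ∃ a, a = k.castLE KN := ⟨_, rfl⟩
    have aK : (a : ℕ) < K := by rw [ha]; exact k.2
    rw [← ha] at h1 h2 ⊢
    have u0 : 0 ≤ W j * (x ^ (a : ℕ)) ^ 2 / 32 := by have := W0 j; positivity
    have t : ∀ i ∈ univ.erase a, W (l i) * (x ^ (i : ℕ)) ^ 2 ≤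
        W j * (x ^ (a : ℕ)) ^ 2 / 32 * (1 / 2) ^ (i : ℕ) := fun i hi => by
      have Wj := W0 j
      rcases lt_or_gt_of_ne (ne_of_mem_erase hi) with c | c
      · have d1 : (x ^ (i : ℕ)) ^ 2 ≤ 1 := pow_le_one₀ (by positivity) (pow_le_one₀ x0.le (by linarith))
        have d2 : x ^ (2 * K) ≤ (x ^ (a : ℕ)) ^ 2 := by
          rw [← pow_mul]; exact pow_le_pow_of_le_one x0.le (by linarith) (by omega)
        have d3 : (1 / 2 : ℝ) ^ K ≤ (1 / 2) ^ (i : ℕ) :=
          pow_le_pow_of_le_one (by norm_num) (by norm_num) (by have := Fin.lt_def.1 c; omega)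
        have d4 := mul_le_mul_of_nonneg_left (mul_le_mul d3 d2 (by positivity) (by positivity)) Wj
        have d5 := mul_le_of_le_one_right (W0 (l i)) d1
        have d6 := hlo _ (h2 i c)
        linarith
      · obtain ⟨d, hd⟩ := Nat.exists_eq_add_of_lt (Fin.lt_def.1 c)
        have d1 : (x ^ d) ^ 2 ≤ (1 / 2) ^ d := by
          rw [sqp]; exact pow_le_pow_left₀ (by positivity) (by nlinarith) d
        have d3 : (1 / 2 : ℝ) ^ K ≤ (1 / 2) ^ ((a : ℕ) + 1) :=
          pow_le_pow_of_le_one (by norm_num) (by norm_num) (by omega)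
        have d4 : x ^ 2 * W (l i) ≤ (1 / 2) ^ ((a : ℕ) + 1) / 32 * W j := by
          have := mul_le_mul_of_nonneg_left (hz (l i)) (sq_nonneg x)
          have := mul_le_mul_of_nonneg_right d3 Wj
          linarith
        have d5 := mul_le_mul_of_nonneg_left (mul_le_mul d4 d1 (by positivity) (by positivity))
          (sq_nonneg (x ^ (a : ℕ)))
        rw [hd]
        simp only [pow_add, pow_one] at d5 ⊢
        linarith
    have t2 := (sum_le_sum t).trans (sum_le_sum_of_subset_of_nonneg (erase_subset a univ)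
      fun i _ _ => by positivity)
    have t3 := geo N (1 / 2)
    have t4 : 0 ≤ (1 / 2 : ℝ) ^ N := by positivity
    have t5 := mul_le_mul_of_nonneg_left
      (show ∑ k : Fin N, (1 / 2 : ℝ) ^ (k : ℕ) ≤ 2 by linarith) u0
    rw [← mul_sum] at t2
    rw [h1]
    linarith
  · have d1 := single_le_sum (f := fun k : Fin N => W (l k) * (y ^ (k : ℕ)) ^ 2)
      (fun k _ => mul_nonneg (W0 _) (sq_nonneg _)) (mem_univ k')
    have d2 : y ^ (2 * K) ≤ (y ^ (k' : ℕ)) ^ 2 := by
      rw [← pow_mul]; exact pow_le_pow_of_le_one y0.le y1 (by omega)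
    have d3 := mul_le_mul_of_nonneg_left d2 (W0 z)
    have d4 := mul_le_of_le_one_right (W0 j)
      (pow_le_one₀ (n := 2) (by positivity) (pow_le_one₀ (n := (k.castLE KN : ℕ)) y0.le y1))
    beta_reduce at d1
    rw [c2] at d1
    rw [h1]
    linarith

open MeasureTheory ProbabilityTheory in
theorem mom (s : J → ℝ) (p0 : ∀ j, 0 ≤ p j) (s0 : ∀ j, 0 < s j) (h : ∑ j, p j * s j ^ 2 = 1) :
    mix p s {0} = 0 ∧ Integrable (fun x : ℝ => |x| ^ 3) (mix p s) ∧ ∫ x, x ∂mix p s = 0 ∧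
      ∫ x, x ^ 2 ∂mix p s = 1 := by
  have i0 : ∀ (n : ℕ) j, Integrable (fun x : ℝ => |x| ^ n)
      (ENNReal.ofReal (p j) • (gaussianReal 0 1).map (s j * ·)) := fun n j => by
    rw [gaussianReal_map_const_mul]
    exact (memLp_id_gaussianReal' n (by simp)).integrable_norm_pow'.smul_measure (by simp)
  have i1 : ∀ n : ℕ, ∫ x, x ^ n ∂mix p s = ∑ j, p j * s j ^ n * ∫ x, x ^ n ∂gaussianReal 0 1 := fun n => by
    rw [mix, integral_finsetSum_measure fun j _ => (i0 n j).mono' (by fun_prop)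
      (ae_of_all _ fun x => by simp)]
    refine sum_congr rfl fun j _ => ?_
    rw [integral_smul_measure, integral_map (by fun_prop) (by fun_prop), ENNReal.toReal_ofReal (p0 j)]
    simp only [mul_pow, integral_const_mul, smul_eq_mul, mul_assoc]
  refine ⟨?_, integrable_finsetSum_measure.2 fun j _ => i0 3 j, ?_, ?_⟩
  · have := nullSingletonClass_gaussianReal (μ := 0) (v := 1) one_ne_zero
    rw [mix, Measure.finsetSum_apply]
    refine sum_eq_zero fun j _ => ?_
    rw [Measure.smul_apply, Measure.map_apply (by fun_prop) (measurableSet_singleton 0),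
      show (s j * ·) ⁻¹' {0} = {0} by ext x; simp [(s0 j).ne'], measure_singleton, smul_zero]
  · simpa using i1 1
  · have := variance_fun_id_gaussianReal (μ := 0) (v := 1)
    rw [variance_eq_integral measurable_id'.aemeasurable] at this
    simp only [integral_id_gaussianReal, sub_zero, NNReal.coe_one] at this
    simp only [i1, this, mul_one, h]

theorem levels (m : ℕ) : ∃ (p s : Fin (m + 1) → ℝ) (K : ℕ) (x : ℕ → ℝ),
    (∀ j, 0 ≤ p j) ∧ ∑ j, p j = 1 ∧ (∀ j, 0 < s j) ∧ ∑ j, p j * s j ^ 2 = 1 ∧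
    ∑ j, p j * (s j ^ 2) ^ 2 ≤ 2 ^ m ∧ StrictAnti x ∧ (∀ i, 0 < x i ∧ x i ≤ 1 / 2) ∧
    ∀ N, K ≤ N → ∀ i < m, π / 3 * (2 / 5) ≤ Ex p N fun l =>
      ang (fun k => s (l k) ^ 2) (fun k => x (i + 1) ^ (k : ℕ)) (fun k => x i ^ (k : ℕ)) := by
  obtain ⟨P, P0, P1⟩ : ∃ P : ℕ → ℝ, P 0 = 1 / 2 ^ m ∧ ∀ i, P (i + 1) = 2 ^ i / 2 ^ m :=
    ⟨fun n => Nat.rec (1 / 2 ^ m) (fun i _ => 2 ^ i / 2 ^ m) n, rfl, fun _ => rfl⟩
  have Pp : ∀ i, 0 < P i := fun i => by cases i <;> simp only [P0, P1] <;> positivity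
  have S1 : ∀ n, ∑ i ∈ range (n + 1), P i = 2 ^ n / 2 ^ m := fun n => by
    induction n with
    | zero => simp [P0]
    | succ n ih => rw [sum_range_succ, ih, P1]; ring
  have S2 : ∀ j n, j ≤ n → ∑ i ∈ range (n + 1), P i * (if j < i then 1 else 0) =
      2 ^ n / 2 ^ m - 2 ^ j / 2 ^ m := fun j n h => by
    induction n, h using Nat.le_induction with
    | base => rw [sub_self]; exact sum_eq_zero fun i hi => by
                rw [if_neg (by have := mem_range.1 hi; omega), mul_zero]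
    | succ n h ih => rw [sum_range_succ, ih, P1, if_pos (by omega)]; ring
  have p1 : ∑ j : Fin (m + 1), P j = 1 := by
    rw [Fin.sum_univ_eq_sum_range, S1, div_self (by positivity)]
  obtain ⟨K, hK⟩ := exists_pow_lt_of_lt_one (x := (1 / 15 : ℝ)) (by norm_num)
    (show 1 - P 0 < 1 by linarith [Pp 0])
  obtain ⟨e, he⟩ : ∃ e : ℝ, e = (1 / 2) ^ K / 32 := ⟨_, rfl⟩
  have e0 : 0 < e := by rw [he]; positivity
  have e1 : e ≤ 1 / 32 := by
    rw [he]; exact div_le_div_of_nonneg_right (pow_le_one₀ (by norm_num) (by norm_num)) (by norm_num)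
  obtain ⟨w, w0, w1⟩ : ∃ w : ℕ → ℝ, w 0 = 1 ∧ ∀ i, w (i + 1) = e * w i * (e * w i) ^ (2 * K) :=
    ⟨fun n => Nat.rec 1 (fun _ a => e * a * (e * a) ^ (2 * K)) n, rfl, fun _ => rfl⟩
  have wb : ∀ i, 0 < w i ∧ w i ≤ 1 := fun i => by
    induction i with
    | zero => simp [w0]
    | succ i ih =>
      have h := ih.1
      have h1 : e * w i ≤ 1 := mul_le_one₀ (by linarith) h.le ih.2
      rw [w1]
      exact ⟨by positivity, mul_le_one₀ h1 (by positivity) (pow_le_one₀ (by positivity) h1)⟩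
  have ew : ∀ i, 0 < e * w i ∧ e * w i ≤ 1 / 32 := fun i =>
    ⟨mul_pos e0 (wb i).1, (mul_le_of_le_one_right e0.le (wb i).2).trans e1⟩
  have wa : StrictAnti w := strictAnti_nat_of_succ_lt fun i => by
    have h1 := mul_le_of_le_one_right (ew i).1.le
      (pow_le_one₀ (n := 2 * K) (ew i).1.le (by linarith [ew i]))
    have h2 := mul_le_mul_of_nonneg_right e1 (wb i).1.le
    rw [w1]; linarith [wb i]
  obtain ⟨D, hD⟩ : ∃ D, D = ∑ j : Fin (m + 1), P j * w j := ⟨_, rfl⟩
  have D1 : 1 / 2 ^ m ≤ D := by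
    have := single_le_sum (f := fun j : Fin (m + 1) => P j * w j)
      (fun j _ => mul_nonneg (Pp _).le (wb _).1.le) (mem_univ 0)
    simpa [← hD, P0, w0] using this
  have D0 : 0 < D := lt_of_lt_of_le (by positivity) D1
  have sq : ∀ j, √(w j / D) ^ 2 = w j / D := fun j => sq_sqrt (div_pos (wb j).1 D0).le
  have h1 : ∑ j : Fin (m + 1), P j * (w j / D) = 1 := by
    simp only [← mul_div_assoc, ← sum_div, ← hD, div_self D0.ne']
  refine ⟨fun j => P j, fun j => √(w j / D), K, fun i => e * w i, fun j => (Pp _).le, p1,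
    fun j => sqrt_pos.2 (div_pos (wb j).1 D0), by simp only [sq, h1], ?_,
    fun i j h => mul_lt_mul_of_pos_left (wa h) e0, fun i => ⟨(ew i).1, by linarith [ew i]⟩,
    fun N KN i hi => ?_⟩
  · simp only [sq]
    rw [← mul_one (2 ^ m), ← h1, mul_sum]
    refine sum_le_sum fun j _ => ?_
    rw [mul_left_comm, pow_two]
    refine mul_le_mul_of_nonneg_left (mul_le_mul_of_nonneg_right ?_ (div_pos (wb j).1 D0).le) (Pp _).le
    rw [div_le_iff₀' (by positivity)] at D1
    rw [div_le_iff₀ D0]; linarith [wb j]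
  simp only [sq]
  have dv : ∀ a b : ℝ, a ≤ b → a / D ≤ b / D := fun a b h => div_le_div_of_nonneg_right h D0.le
  refine near (fun j : Fin (m + 1) => w j / D) (fun j => (Pp _).le) p1
    (fun j => (div_pos (wb j).1 D0).le) (fun j => i + 1 < (j : ℕ)) ⟨i + 1, by omega⟩ 0 K N KN _ _ (ew _).1
    (by linarith [ew (i + 1)]) (ew _).1 (by linarith [ew i]) (by simp)
    (fun j => dv _ _ (wa.antitone (by simp))) (fun j hj => ?_) ?_ ?_ ?_ ?_ hK.le
  · rw [← he, ← mul_div_assoc, ← mul_div_right_comm, ← w1]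
    exact dv _ _ (wa.antitone hj)
  · rw [← he, ← mul_div_assoc, ← mul_div_assoc, Fin.val_zero, w0]
    refine dv _ _ ?_
    have := mul_le_mul_of_nonneg_left (ew (i + 1)).2 (ew (i + 1)).1.le
    linarith [ew (i + 1)]
  · rw [← mul_div_assoc, ← mul_div_right_comm, Fin.val_zero, w0, w1]
    refine dv _ _ ?_
    have := mul_le_mul_of_nonneg_right (ew i).2 (pow_pos (ew i).1 (2 * K)).le
    linarith [pow_pos (ew i).1 (2 * K)]
  · rw [Fin.sum_univ_eq_sum_range (fun j => P j * if i + 1 < j then 1 else 0), S2 (i + 1) m hi, P1,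
      div_self (by positivity)]
    ring
  · rw [Fin.val_zero, P0, P1, ← mul_div_assoc]
    exact div_le_div_of_nonneg_right (by linarith [one_le_pow₀ (n := i) (one_le_two (α := ℝ))])
      (by positivity)

end Pool.Agent.H.MP_a7dd25_pr
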